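import Mathlib

/-!
The language `E` (grammar `S → a S b S c | d`), its deterministic push-down automaton and a family
of self-embeddings of `E`.
-/

set_option autoImplicit false

namespace Pool.Agent.TH738.BQ

/-- the words of `E`; the letters `a, b, c, d` are `0, 1, 2, 3` -/
inductive E : List (Fin 4) → Prop
  | leaf : E [3]
  | node {u v : List (Fin 4)} : E u → E v → E (0 :: u ++ 1 :: v ++ [2])

/-- configurations: `ex = true` means that a word of `E` is expected; the stack (top first)
contains `false` for a pending `b` and `true` for a pending `c` -/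
structure Cfg where
  ex : Bool
  st : List Bool
deriving DecidableEq

/-- one step -/
def step : Cfg → Fin 4 → Option Cfg
  | ⟨true, s⟩, 0 => some ⟨true, false :: s⟩
  | ⟨true, s⟩, 3 => some ⟨false, s⟩
  | ⟨false, false :: s⟩, 1 => some ⟨true, true :: s⟩
  | ⟨false, true :: s⟩, 2 => some ⟨false, s⟩
  | _, _ => none

/-- a run -/
def run : List (Fin 4) → Cfg → Option Cfg
  | [], k => some k
  | x :: w, k => (step k x).bind (run w)

@[simp] theorem run_nil (k : Cfg) : run [] k = some k := rfl
theorem run_cons (x : Fin 4) (w : List (Fin 4)) (k : Cfg) :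
    run (x :: w) k = (step k x).bind (run w) := rfl

theorem run_append (u v : List (Fin 4)) (k : Cfg) :
    run (u ++ v) k = (run u k).bind (run v) := by
  induction u generalizing k with
  | nil => rfl
  | cons x u ih =>
    simp only [List.cons_append, run_cons]
    cases h : step k x with
    | none => rfl
    | some k' => simp [ih]

@[simp] theorem step_a (s : List Bool) : step ⟨true, s⟩ 0 = some ⟨true, false :: s⟩ := rfl
@[simp] theorem step_d (s : List Bool) : step ⟨true, s⟩ 3 = some ⟨false, s⟩ := rfl
@[simp] theorem step_b (s : List Bool) :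
    step ⟨false, false :: s⟩ 1 = some ⟨true, true :: s⟩ := rfl
@[simp] theorem step_c (s : List Bool) :
    step ⟨false, true :: s⟩ 2 = some ⟨false, s⟩ := rfl
@[simp] theorem step_a' (s : List Bool) : step ⟨false, s⟩ 0 = none := by
  rcases s with _ | ⟨_ | _, s⟩ <;> rfl
@[simp] theorem step_d' (s : List Bool) : step ⟨false, s⟩ 3 = none := by
  rcases s with _ | ⟨_ | _, s⟩ <;> rfl
@[simp] theorem step_b' (s : List Bool) : step ⟨true, s⟩ 1 = none := by
  rcases s with _ | ⟨_ | _, s⟩ <;> rfl
@[simp] theorem step_c' (s : List Bool) : step ⟨true, s⟩ 2 = none := by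
  rcases s with _ | ⟨_ | _, s⟩ <;> rfl
@[simp] theorem step_b'' (s : List Bool) : step ⟨false, true :: s⟩ 1 = none := rfl
@[simp] theorem step_c'' (s : List Bool) : step ⟨false, false :: s⟩ 2 = none := rfl
@[simp] theorem step_b0 : step ⟨false, []⟩ 1 = none := rfl
@[simp] theorem step_c0 : step ⟨false, []⟩ 2 = none := rfl

/-- words of `E` complete one expected word -/
theorem E.run {e : List (Fin 4)} (h : E e) (s : List Bool) :
    run e ⟨true, s⟩ = some ⟨false, s⟩ := by
  induction h generalizing s with
  | leaf => simp [run_cons]
  | @node u v _ _ ihu ihv =>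
    simp only [List.cons_append, List.append_assoc, run_cons, step_a, Option.bind_some,
      run_append, ihu, step_b, ihv, step_c, run_nil]

/-- the words that lead from a configuration to acceptance -/
def Comp : List Bool → List (Fin 4) → Prop
  | [], w => w = []
  | true :: s, w => ∃ w', w = 2 :: w' ∧ Comp s w'
  | false :: s, w => ∃ e w', E e ∧ w = 1 :: e ++ 2 :: w' ∧ Comp s w'

theorem run_accept (w : List (Fin 4)) : ∀ k : Cfg, run w k = some ⟨false, []⟩ →
    (k.ex = false → Comp k.st w) ∧ (k.ex = true → ∃ e w', E e ∧ w = e ++ w' ∧ Comp k.st w') := by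
  induction w with
  | nil =>
    intro k hk
    simp only [run_nil, Option.some.injEq] at hk
    subst hk
    refine ⟨fun _ => rfl, fun h => by simp at h⟩
  | cons x w ih =>
    rintro ⟨b, s⟩ hk
    rw [run_cons] at hk
    cases b with
    | false =>
      refine ⟨fun _ => ?_, fun h => by simp at h⟩
      fin_cases x
      · simp at hk
      · rcases s with _ | ⟨_ | _, s⟩
        · simp at hk
        · simp only [Fin.mk_one, step_b, Option.bind_some] at hk
          obtain ⟨e, w', he, rfl, hc⟩ := (ih _ hk).2 rfl
          obtain ⟨w'', rfl, hc'⟩ := hc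
          exact ⟨e, w'', he, rfl, hc'⟩
        · simp at hk
      · rcases s with _ | ⟨_ | _, s⟩
        · simp at hk
        · simp at hk
        · simp only [Fin.reduceFinMk, step_c, Option.bind_some] at hk
          exact ⟨w, rfl, (ih _ hk).1 rfl⟩
      · simp at hk
    | true =>
      refine ⟨fun h => by simp at h, fun _ => ?_⟩
      fin_cases x
      · simp only [Fin.zero_eta, step_a, Option.bind_some] at hk
        obtain ⟨e, w', he, rfl, hc⟩ := (ih _ hk).2 rfl
        obtain ⟨e2, w'', he2, rfl, hc'⟩ := hc
        exact ⟨0 :: e ++ 1 :: e2 ++ [2], w'', E.node he he2, by simp, hc'⟩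
      · simp at hk
      · simp at hk
      · simp only [Fin.reduceFinMk, step_d, Option.bind_some] at hk
        exact ⟨[3], w, E.leaf, rfl, (ih _ hk).1 rfl⟩

theorem E_iff (w : List (Fin 4)) : E w ↔ run w ⟨true, []⟩ = some ⟨false, []⟩ := by
  constructor
  · intro h; exact h.run []
  · intro h
    obtain ⟨e, w', he, rfl, hc⟩ := (run_accept w _ h).2 rfl
    have : w' = [] := hc
    subst this
    simpa using he

/-- the word that pushes the list `r` (first element first) -/
def pushW (r : List Bool) : List (Fin 4) :=
  r.flatMap fun b => if b then [0, 3, 1] else [0]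

/-- the word that pops the list `p` (first element first) -/
def popW (p : List Bool) : List (Fin 4) :=
  p.flatMap fun b => if b then [2] else [1, 3, 2]

theorem run_pushW (r s : List Bool) : run (pushW r) ⟨true, s⟩ = some ⟨true, r.reverse ++ s⟩ := by
  induction r generalizing s with
  | nil => rfl
  | cons b r ih =>
    have : pushW (b :: r) = (if b then [0, 3, 1] else [0]) ++ pushW r := by simp [pushW]
    rw [this, run_append]
    cases b <;> simp [run_cons, ih]

theorem run_popW (p s : List Bool) :
    run (popW p) ⟨false, p ++ s⟩ = some ⟨false, s⟩ := by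
  induction p generalizing s with
  | nil => rfl
  | cons b p ih =>
    have : popW (b :: p) = (if b then [2] else [1, 3, 2]) ++ popW p := by simp [popW]
    rw [this, run_append]
    cases b <;> simp [run_cons, ih]

/-- a mismatch at the first letter -/
theorem run_popW_ne (b : Bool) (p : List Bool) (s : List Bool) (h : s.head? ≠ some b) :
    run (popW (b :: p)) ⟨false, s⟩ = none := by
  have : popW (b :: p) = (if b then [2] else [1, 3, 2]) ++ popW p := by simp [popW]
  rw [this, run_append]
  rcases s with _ | ⟨c, s⟩
  · cases b <;> simp [run_cons]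
  · cases b <;> cases c <;> simp [run_cons] at h ⊢

theorem run_popW_full (p s : List Bool) (h : run (popW p) ⟨false, s⟩ = some ⟨false, []⟩) :
    s = p := by
  induction p generalizing s with
  | nil => simpa [popW] using h
  | cons b p ih =>
    rcases s with _ | ⟨c, s⟩
    · rw [run_popW_ne b p [] (by simp)] at h; simp at h
    · by_cases hc : c = b
      · subst hc
        have e : popW (c :: p) = popW [c] ++ popW p := by simp [popW]
        rw [e, run_append, show c :: s = [c] ++ s from rfl, run_popW, Option.bind_some] at h
        rw [ih s h]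
      · rw [run_popW_ne b p (c :: s) (by simpa using hc)] at h; simp at h

end Pool.Agent.TH738.BQ
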