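import Pool.Agent.TH738.BQ.Core

set_option autoImplicit false

namespace Pool.Agent.TH738.BQ

/-- a word of `E` with `n` inner nodes -/
def bigE : ℕ → List (Fin 4)
  | 0 => [3]
  | n + 1 => 0 :: bigE n ++ 1 :: [3] ++ [2]

theorem E_bigE (n : ℕ) : E (bigE n) := by
  induction n with
  | zero => exact E.leaf
  | succ n ih => exact E.node ih E.leaf

theorem run_bigE (n : ℕ) (s : List Bool) : run (bigE n) ⟨true, s⟩ = some ⟨false, s⟩ :=
  (E_bigE n).run s

/-- parameters of a self-embedding of `E` -/
structure Par where
  b : List Bool
  t : List Bool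
  r : List Bool
  j : ℕ
  n : Fin 4 → ℕ

namespace Par

variable (P : Par)

/-- the code of the fact that a word is completed, top first -/
def Y : List Bool := (List.replicate (P.j + 2) true ++ P.r).reverse

/-- `b` with a first `true` -/
def b1 : List Bool := true :: P.b

structure Good : Prop where
  hb : ∃ c, P.b1.reverse = false :: c
  ht : ∃ c, P.t.reverse = true :: c
  hY : ∃ c, P.Y = true :: c

/-- the self-embedding -/
def g : Fin 4 → List (Fin 4) := fun x =>
  match x with
  | 0 => [0] ++ bigE (P.n 0) ++ [1] ++ pushW (P.b ++ [false])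
  | 1 => bigE (P.n 1) ++ popW (P.Y ++ P.b1.reverse) ++ [1] ++
      pushW (List.replicate P.j true ++ [false] ++ P.t ++ [false])
  | 2 => bigE (P.n 2) ++ popW (P.Y ++ P.t.reverse) ++ [1] ++ pushW P.r
  | 3 => bigE (P.n 3) ++ [1] ++ pushW (List.replicate (P.j + 1) true ++ P.r)

end Par

/-- stack symbols; `z` is garbage -/
inductive Sy
  | b | g | z

/-- configurations with garbage -/
structure C3 where
  ex : Bool
  st : List Sy

def step3 : C3 → Fin 4 → Option C3
  | ⟨true, s⟩, 0 => some ⟨true, Sy.b :: s⟩
  | ⟨false, s⟩, 0 => some ⟨true, Sy.z :: s⟩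
  | ⟨true, s⟩, 3 => some ⟨false, s⟩
  | ⟨false, Sy.b :: s⟩, 1 => some ⟨true, Sy.g :: s⟩
  | ⟨false, Sy.g :: s⟩, 2 => some ⟨false, s⟩
  | _, _ => none

def run3 : List (Fin 4) → C3 → Option C3
  | [], k => some k
  | x :: w, k => (step3 k x).bind (run3 w)

namespace Par

variable (P : Par)

/-- the code of a stack symbol, top first -/
def cd : Sy → List Bool
  | Sy.b => P.b1.reverse ++ [false]
  | Sy.g => P.t.reverse ++ [false] ++ List.replicate (P.j + 1) true
  | Sy.z => P.b1.reverse ++ P.Y

def flat (s : List Sy) : List Bool := s.flatMap P.cd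

def code : C3 → Cfg
  | ⟨true, s⟩ => ⟨true, false :: P.flat s⟩
  | ⟨false, s⟩ => ⟨true, P.Y ++ P.flat s⟩

theorem Y_eq : P.Y = P.r.reverse ++ List.replicate (P.j + 2) true := by
  simp [Y]

theorem rep_comm (j : ℕ) (s : List Bool) :
    true :: (List.replicate j true ++ s) = List.replicate j true ++ true :: s := by
  induction j with
  | zero => rfl
  | succ j ih => rw [List.replicate_succ, List.cons_append, List.cons_append, ih]

theorem run_push_tail (u : List (Fin 4)) (r : List Bool) (s : List Bool) (n : ℕ)
    (p : List Bool) (hu : u = popW p) :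
    run (bigE n ++ u ++ [1] ++ pushW r) ⟨true, p ++ false :: s⟩ =
      some ⟨true, r.reverse ++ true :: s⟩ := by
  subst hu
  rw [run_append, run_append, run_append, run_bigE, Option.bind_some, run_popW, Option.bind_some]
  simp only [run_cons, step_b, Option.bind_some, run_nil, run_pushW]

theorem run_fail (n : ℕ) (p r s : List Bool) (h : run (popW p ++ [1]) ⟨false, s⟩ = none) :
    run (bigE n ++ popW p ++ [1] ++ pushW r) ⟨true, s⟩ = none := by
  rw [run_append, List.append_assoc, run_append, run_bigE, Option.bind_some, h]
  rfl

theorem pop_fail {b : Bool} {p s : List Bool} (q : List Bool) (h : s.head? ≠ some b) :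
    run (popW (q ++ b :: p) ++ [1]) ⟨false, q ++ s⟩ = none := by
  have e : popW (q ++ b :: p) = popW q ++ popW (b :: p) := by simp [popW]
  rw [e, List.append_assoc, run_append, run_popW, Option.bind_some, run_append,
    run_popW_ne b p s h]
  rfl

theorem b_fail {s : List Bool} (q : List Bool) (h : s.head? ≠ some false) :
    run (popW q ++ [1]) ⟨false, q ++ s⟩ = none := by
  rw [run_append, run_popW, Option.bind_some, run_cons]
  rcases s with _ | ⟨_ | _, s⟩
  · rfl
  · simp at h
  · rfl

variable {P}

theorem sim_step (hP : P.Good) (x : Fin 4) (k : C3) :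
    run (P.g x) (P.code k) = (step3 k x).map P.code := by
  obtain ⟨cb, hcb⟩ := hP.hb
  obtain ⟨ct, hct⟩ := hP.ht
  obtain ⟨cy, hcy⟩ := hP.hY
  obtain ⟨ex, s⟩ := k
  have hb1 : P.b1.reverse = P.b.reverse ++ [true] := by simp [b1]
  fin_cases x
  · -- push
    have h0 : ∀ q : List Bool, run (P.g 0) ⟨true, q⟩ =
        some ⟨true, false :: (P.b1.reverse ++ q)⟩ := by
      intro q
      simp only [g, run_append]
      simp only [run_cons, step_a, Option.bind_some, run_nil, run_bigE, step_b, run_pushW]
      simp [hb1]
    cases ex
    · simp only [code, Fin.zero_eta, h0, step3, Option.map_some, flat, List.flatMap_cons, cd,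
        List.append_assoc]
    · simp only [code, Fin.zero_eta, h0, step3, Option.map_some, flat, List.flatMap_cons, cd,
        List.append_assoc, List.cons_append, List.nil_append]
  · -- b
    cases ex
    · rcases s with _ | ⟨_ | _ | _, s⟩
      · simp only [code, Fin.mk_one, g, step3, Option.map_none]
        apply run_fail
        rw [hcb]
        exact pop_fail P.Y (by simp [flat])
      · simp only [code, Fin.mk_one, g, step3, Option.map_some]
        have e : P.Y ++ P.flat (Sy.b :: s) = (P.Y ++ P.b1.reverse) ++ false :: P.flat s := by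
          simp [flat, cd]
        rw [e, run_push_tail _ _ _ _ _ rfl]
        congr 2
        simp [flat, cd, List.replicate_succ']
      · simp only [code, Fin.mk_one, g, step3, Option.map_none]
        apply run_fail
        rw [hcb]
        exact pop_fail P.Y (by simp [flat, cd, hct])
      · simp only [code, Fin.mk_one, g, step3, Option.map_none]
        apply run_fail
        have e : P.Y ++ P.flat (Sy.z :: s) = (P.Y ++ P.b1.reverse) ++ (P.Y ++ P.flat s) := by
          simp [flat, cd]
        rw [e]
        exact b_fail _ (by simp [hcy])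
    · simp only [code, Fin.mk_one, g, step3, Option.map_none]
      apply run_fail
      have := pop_fail (b := true) (p := cy ++ P.b1.reverse) (s := false :: P.flat s) [] (by simp)
      rw [hcy]
      simpa using this
  · -- c
    cases ex
    · rcases s with _ | ⟨_ | _ | _, s⟩
      · simp only [code, Fin.reduceFinMk, g, step3, Option.map_none]
        apply run_fail
        rw [hct]
        exact pop_fail P.Y (by simp [flat])
      · simp only [code, Fin.reduceFinMk, g, step3, Option.map_none]
        apply run_fail
        rw [hct]
        exact pop_fail P.Y (by simp [flat, cd, hcb])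
      · simp only [code, Fin.reduceFinMk, g, step3, Option.map_some]
        have e : P.Y ++ P.flat (Sy.g :: s) =
            (P.Y ++ P.t.reverse) ++ false :: (List.replicate (P.j + 1) true ++ P.flat s) := by
          simp [flat, cd]
        rw [e, run_push_tail _ _ _ _ _ rfl]
        congr 2
        simp [Y_eq, flat, List.replicate_succ]
      · simp only [code, Fin.reduceFinMk, g, step3, Option.map_none]
        apply run_fail
        rw [hct]
        exact pop_fail P.Y (by simp [flat, cd, hcb])
    · simp only [code, Fin.reduceFinMk, g, step3, Option.map_none]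
      apply run_fail
      have := pop_fail (b := true) (p := cy ++ P.t.reverse) (s := false :: P.flat s) [] (by simp)
      rw [hcy]
      simpa using this
  · -- d
    have e0 : P.g 3 = bigE (P.n 3) ++ popW [] ++ [1] ++
        pushW (List.replicate (P.j + 1) true ++ P.r) := by
      simp [g, popW]
    cases ex
    · simp only [code, Fin.reduceFinMk, step3, Option.map_none]
      rw [e0]
      apply run_fail
      exact b_fail [] (by simp [hcy])
    · simp only [code, Fin.reduceFinMk, step3, Option.map_some]
      rw [e0]
      have := run_push_tail (popW []) (List.replicate (P.j + 1) true ++ P.r) (P.flat s) (P.n 3) []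
        rfl
      rw [List.nil_append] at this
      rw [this]
      congr 2
      simp [Y_eq, List.replicate_succ', rep_comm]

theorem sim (hP : P.Good) (w : List (Fin 4)) (k : C3) :
    run (w.flatMap P.g) (P.code k) = (run3 w k).map P.code := by
  induction w generalizing k with
  | nil => rfl
  | cons x w ih =>
    rw [List.flatMap_cons, run_append, sim_step hP]
    change _ = ((step3 k x).bind (run3 w)).map P.code
    cases h : step3 k x with
    | none => rfl
    | some k' => simp [ih]

end Par

/-- forgetting that there is no garbage -/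
def sy : Bool → Sy
  | false => Sy.b
  | true => Sy.g

/-- configurations without garbage -/
def up (k : Cfg) : C3 := ⟨k.ex, k.st.map sy⟩

theorem step3_up (k k' : Cfg) (x : Fin 4) (h : step k x = some k') :
    step3 (up k) x = some (up k') := by
  obtain ⟨ex, s⟩ := k
  fin_cases x <;> cases ex <;> rcases s with _ | ⟨_ | _, s⟩ <;>
    simp [up, step3, sy] at h ⊢ <;> subst h <;> simp [sy]

theorem run3_up (w : List (Fin 4)) (k k' : Cfg) (h : run w k = some k') :
    run3 w (up k) = some (up k') := by
  induction w generalizing k with
  | nil => simp at h; subst h; rfl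
  | cons x w ih =>
    rw [run_cons] at h
    cases h1 : step k x with
    | none => rw [h1] at h; simp at h
    | some k1 =>
      rw [h1] at h
      change (step3 (up k) x).bind (run3 w) = _
      rw [step3_up k k1 x h1]
      exact ih k1 h

theorem mem_z_of_step3 (k k' : C3) (x : Fin 4) (h : step3 k x = some k') (hz : Sy.z ∈ k.st) :
    Sy.z ∈ k'.st := by
  obtain ⟨ex, s⟩ := k
  fin_cases x <;> cases ex <;> rcases s with _ | ⟨_ | _ | _, s⟩ <;>
    simp [step3] at h hz ⊢ <;> subst h <;> simp_all

theorem mem_z_of_run3 (w : List (Fin 4)) (k k' : C3) (h : run3 w k = some k')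
    (hz : Sy.z ∈ k.st) : Sy.z ∈ k'.st := by
  induction w generalizing k with
  | nil => change some k = some k' at h; simp at h; subst h; exact hz
  | cons x w ih =>
    change (step3 k x).bind (run3 w) = _ at h
    cases h1 : step3 k x with
    | none => rw [h1] at h; simp at h
    | some k1 =>
      rw [h1] at h
      exact ih k1 h (mem_z_of_step3 k k1 x h1 hz)

theorem step3_down (k : Cfg) (x : Fin 4) (k3 : C3) (h : step3 (up k) x = some k3) :
    (∃ k', step k x = some k' ∧ k3 = up k') ∨ Sy.z ∈ k3.st := by
  obtain ⟨ex, s⟩ := k
  fin_cases x <;> cases ex <;> rcases s with _ | ⟨_ | _, s⟩ <;>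
    simp [up, step3, sy] at h ⊢ <;> subst h <;> simp [sy]

theorem run3_down (w : List (Fin 4)) (k : Cfg) (h : run3 w (up k) = some ⟨false, []⟩) :
    run w k = some ⟨false, []⟩ := by
  induction w generalizing k with
  | nil =>
    obtain ⟨ex, s⟩ := k
    change some (up ⟨ex, s⟩) = _ at h
    simp [up] at h
    simp [h]
  | cons x w ih =>
    change (step3 (up k) x).bind (run3 w) = _ at h
    cases h1 : step3 (up k) x with
    | none => rw [h1] at h; simp at h
    | some k3 =>
      rw [h1, Option.bind_some] at h
      rcases step3_down k x k3 h1 with ⟨k', hk', rfl⟩ | hz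
      · rw [run_cons, hk', Option.bind_some]
        exact ih k' h
      · have := mem_z_of_run3 w k3 _ h hz
        simp at this

theorem run3_iff (w : List (Fin 4)) :
    run3 w ⟨true, []⟩ = some ⟨false, []⟩ ↔ E w := by
  rw [E_iff]
  constructor
  · intro h; exact run3_down w ⟨true, []⟩ h
  · intro h; exact run3_up w ⟨true, []⟩ ⟨false, []⟩ h

namespace Par

variable {P : Par}

/-- the word after the image -/
def wy (P : Par) : List (Fin 4) := 3 :: popW P.Y

theorem code_eq_Y (hP : P.Good) (k : C3) (h : P.code k = ⟨true, P.Y⟩) : k = ⟨false, []⟩ := by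
  obtain ⟨cb, hcb⟩ := hP.hb
  obtain ⟨ct, hct⟩ := hP.ht
  obtain ⟨cy, hcy⟩ := hP.hY
  obtain ⟨ex, s⟩ := k
  cases ex
  · simp only [code, Cfg.mk.injEq, true_and] at h
    have : P.flat s = [] := by simpa using h
    rcases s with _ | ⟨_ | _ | _, s⟩
    · rfl
    · simp [flat, cd] at this
    · simp [flat, cd] at this
    · simp [flat, cd, hcb] at this
  · simp only [code, Cfg.mk.injEq, true_and] at h
    rw [hcy] at h
    simp at h

/-- the self-embedding is faithful -/
theorem faithful (hP : P.Good) (w : List (Fin 4)) :
    E (0 :: w.flatMap P.g ++ P.wy) ↔ E w := by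
  rw [E_iff, ← run3_iff w, List.cons_append, run_cons, step_a, Option.bind_some, run_append]
  have h := sim hP w ⟨true, []⟩
  change run (w.flatMap P.g) ⟨true, [false]⟩ = _ at h
  rw [h]
  constructor
  · intro h1
    cases h2 : run3 w ⟨true, []⟩ with
    | none => rw [h2] at h1; simp at h1
    | some k =>
      rw [h2] at h1
      simp only [Option.map_some, Option.bind_some] at h1
      have hk : ∃ s, P.code k = ⟨true, s⟩ := by
        obtain ⟨ex, s⟩ := k
        cases ex <;> exact ⟨_, rfl⟩
      obtain ⟨s, hs⟩ := hk
      rw [hs] at h1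
      simp only [wy, run_cons, step_d, Option.bind_some] at h1
      have := run_popW_full _ _ h1
      subst this
      rw [code_eq_Y hP k hs]
  · intro h1
    rw [h1]
    simp only [Option.map_some, Option.bind_some, code, flat, List.flatMap_nil, List.append_nil]
    simp only [wy, run_cons, step_d, Option.bind_some]
    have := run_popW P.Y []
    rwa [List.append_nil] at this

end Par

end Pool.Agent.TH738.BQ
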