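import Pool.Agent.TH738.BQ.Emb

set_option autoImplicit false

namespace Pool.Agent.TH738.BQ

/-- the length of the image of a word -/
def len (l : Fin 4 → ℕ) (w : List (Fin 4)) : ℕ := (w.map l).sum

variable (l : Fin 4 → ℕ)

@[simp] theorem len_nil : len l [] = 0 := rfl
@[simp] theorem len_cons (x : Fin 4) (w : List (Fin 4)) : len l (x :: w) = l x + len l w := by
  simp [len]
@[simp] theorem len_append (u v : List (Fin 4)) : len l (u ++ v) = len l u + len l v := by
  simp [len]

theorem len_flatMap {X : Type*} (h : Fin 4 → List X) (w : List (Fin 4)) :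
    (w.flatMap h).length = len (fun i => (h i).length) w := by
  simp [len, List.length_flatMap]

theorem len_bigE (n : ℕ) : len l (bigE n) = l 3 + n * (l 0 + l 1 + l 2 + l 3) := by
  induction n with
  | zero => simp [bigE]
  | succ n ih => simp [bigE, ih]; ring

theorem len_pushW_append (r s : List Bool) :
    len l (pushW (r ++ s)) = len l (pushW r) + len l (pushW s) := by
  simp [pushW]

theorem len_popW_append (r s : List Bool) :
    len l (popW (r ++ s)) = len l (popW r) + len l (popW s) := by
  simp [popW]

theorem len_pushW_rep (n : ℕ) (b : Bool) :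
    len l (pushW (List.replicate n b)) = n * (if b then l 0 + l 3 + l 1 else l 0) := by
  induction n with
  | zero => simp [pushW]
  | succ n ih =>
    rw [List.replicate_succ, show b :: List.replicate n b = [b] ++ List.replicate n b from rfl,
      len_pushW_append, ih]
    cases b <;> simp [pushW] <;> ring

theorem len_popW_rep (n : ℕ) (b : Bool) :
    len l (popW (List.replicate n b)) = n * (if b then l 2 else l 1 + l 3 + l 2) := by
  induction n with
  | zero => simp [popW]
  | succ n ih =>
    rw [List.replicate_succ, show b :: List.replicate n b = [b] ++ List.replicate n b from rfl,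
      len_popW_append, ih]
    cases b <;> simp [popW] <;> ring

theorem len_pushW_one (b : Bool) :
    len l (pushW [b]) = (if b then l 0 + l 3 + l 1 else l 0) := by
  simpa using len_pushW_rep l 1 b

theorem len_popW_one (b : Bool) :
    len l (popW [b]) = (if b then l 2 else l 1 + l 3 + l 2) := by
  simpa using len_popW_rep l 1 b

/-- the self-embeddings that are used -/
def par (m : ℕ) (n : Fin 4 → ℕ) : Par where
  b := List.replicate m true ++ List.replicate m false
  t := List.replicate m false ++ List.replicate (m + 1) true
  r := [false] ++ List.replicate m true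
  j := m
  n := n

theorem par_good (m : ℕ) (hm : 0 < m) (n : Fin 4 → ℕ) : (par m n).Good := by
  obtain ⟨m, rfl⟩ : ∃ k, m = k + 1 := ⟨m - 1, by omega⟩
  refine ⟨?_, ?_, ?_⟩
  · have e : (par (m + 1) n).b1.reverse =
        List.replicate (m + 1) false ++ (List.replicate (m + 1) true ++ [true]) := by
      simp only [Par.b1, par, List.reverse_cons, List.reverse_append, List.reverse_replicate,
        List.append_assoc]
    rw [e, List.replicate_succ, List.cons_append]
    exact ⟨_, rfl⟩
  · have e : (par (m + 1) n).t.reverse =
        List.replicate (m + 2) true ++ List.replicate (m + 1) false := by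
      simp only [par, List.reverse_append, List.reverse_replicate]
    rw [e, List.replicate_succ, List.cons_append]
    exact ⟨_, rfl⟩
  · have e : (par (m + 1) n).Y = List.replicate (m + 1) true ++
        ([false] ++ List.replicate (m + 3) true) := by
      simp only [Par.Y, par, List.reverse_append, List.reverse_replicate, List.append_assoc,
        List.reverse_singleton]
    rw [e, List.replicate_succ, List.cons_append]
    exact ⟨_, rfl⟩

theorem len_g (m : ℕ) (n : Fin 4 → ℕ) :
    len l ((par m n).g 0) = (m + 1) * (2 * l 0 + l 3 + l 1) + n 0 * (l 0 + l 1 + l 2 + l 3) ∧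
    len l ((par m n).g 1) = (m + 1) * (3 * l 0 + 3 * l 3 + 3 * l 1 + 4 * l 2) +
      n 1 * (l 0 + l 1 + l 2 + l 3) ∧
    len l ((par m n).g 2) = (m + 1) * (l 0 + 2 * l 3 + 2 * l 1 + 4 * l 2) +
      n 2 * (l 0 + l 1 + l 2 + l 3) ∧
    len l ((par m n).g 3) = (m + 1) * (2 * l 0 + 2 * l 3 + 2 * l 1) +
      n 3 * (l 0 + l 1 + l 2 + l 3) := by
  have hY : len l (popW (par m n).Y) = (2 * m + 2) * l 2 + (l 1 + l 3 + l 2) := by
    simp only [Par.Y, par, List.reverse_append, List.reverse_replicate, List.reverse_singleton,
      len_popW_append, len_popW_rep, len_popW_one]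
    simp
    ring
  have hb : len l (popW (par m n).b1.reverse) = (m + 1) * l 2 + m * (l 1 + l 3 + l 2) := by
    have : (par m n).b1.reverse = List.replicate m false ++ (List.replicate m true ++ [true]) := by
      simp [Par.b1, par]
    rw [this]
    simp only [len_popW_append, len_popW_rep, len_popW_one]
    simp
    ring
  have ht : len l (popW (par m n).t.reverse) = (m + 1) * l 2 + m * (l 1 + l 3 + l 2) := by
    simp only [par, List.reverse_append, List.reverse_replicate, len_popW_append, len_popW_rep]
    simp
  refine ⟨?_, ?_, ?_, ?_⟩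
  · simp only [Par.g, len_append, len_bigE, len_pushW_append, len_cons, len_nil, len_pushW_rep,
      len_pushW_one, par]
    simp
    ring
  · simp only [Par.g, len_append, len_bigE, len_popW_append, hY, hb, len_cons, len_nil,
      len_pushW_append]
    simp only [par, len_pushW_append, len_pushW_rep, len_pushW_one]
    simp
    ring
  · simp only [Par.g, len_append, len_bigE, len_popW_append, hY, ht, len_cons, len_nil]
    simp only [par, len_pushW_append, len_pushW_rep, len_pushW_one]
    simp
    ring
  · simp only [Par.g, len_append, len_bigE, len_cons, len_nil, len_pushW_append]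
    simp only [par, len_pushW_append, len_pushW_rep, len_pushW_one]
    simp
    ring

theorem exists_par (hT : 0 < l 0 + l 1 + l 2 + l 3) :
    ∃ P : Par, P.Good ∧ ∃ N, ∀ i, len l (P.g i) = N := by
  set T := l 0 + l 1 + l 2 + l 3 with hTd
  set s0 := 2 * l 0 + l 3 + l 1 with hs0
  set s1 := 3 * l 0 + 3 * l 3 + 3 * l 1 + 4 * l 2 with hs1
  set s2 := l 0 + 2 * l 3 + 2 * l 1 + 4 * l 2 with hs2
  set s3 := 2 * l 0 + 2 * l 3 + 2 * l 1 with hs3
  let n : Fin 4 → ℕ := ![2 * (s1 + s2 + s3), 2 * (s0 + s2 + s3), 2 * (s0 + s1 + s3),
    2 * (s0 + s1 + s2)]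
  obtain ⟨h0, h1, h2, h3⟩ := len_g l (2 * T - 1) n
  have hm : 2 * T - 1 + 1 = 2 * T := by omega
  rw [hm, ← hTd] at h0 h1 h2 h3
  refine ⟨par (2 * T - 1) n, par_good _ (by omega) _, 2 * T * (s0 + s1 + s2 + s3), ?_⟩
  intro i
  fin_cases i
  · change len l ((par (2 * T - 1) n).g 0) = _
    rw [h0]
    simp only [n, Matrix.cons_val_zero, ← hs0]
    ring
  · change len l ((par (2 * T - 1) n).g 1) = _
    rw [h1]
    simp only [n, Matrix.cons_val_one, ← hs1]
    simp
    ring
  · change len l ((par (2 * T - 1) n).g 2) = _
    rw [h2]
    simp only [n, ← hs2]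
    simp
    ring
  · change len l ((par (2 * T - 1) n).g 3) = _
    rw [h3]
    simp only [n, ← hs3]
    simp
    ring

end Pool.Agent.TH738.BQ
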