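import Mathlib

set_option autoImplicit false

namespace Pool.Agent.TH738.BQ

variable {X : Type}

/-- a finite set of languages whose letter quotients are unions of its members consists of
regular languages -/
theorem regular_of_components (S : Set (Language X)) (hS : S.Finite)
    (h : ∀ K ∈ S, ∀ x : X, ∀ y : List X, x :: y ∈ K →
      ∃ K' ∈ S, y ∈ K' ∧ ∀ z ∈ K', x :: z ∈ K) (K : Language X) (hK : K ∈ S) :
    K.IsRegular := by
  have key : ∀ (z : List X) (K : Language X), (∀ y ∈ K, ∃ K' ∈ S, y ∈ K' ∧ K' ≤ K) →
      ∀ y ∈ K.leftQuotient z, ∃ K' ∈ S, y ∈ K' ∧ K' ≤ K.leftQuotient z := by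
    intro z
    induction z with
    | nil => intro K hK y hy; exact hK y hy
    | cons x z ih =>
      intro K hK y hy
      have e : K.leftQuotient (x :: z) = (K.leftQuotient [x]).leftQuotient z := by
        ext v
        simp [Language.mem_leftQuotient]
      rw [e] at hy ⊢
      refine ih _ ?_ y hy
      intro v hv
      have hv' : x :: v ∈ K := hv
      obtain ⟨K1, hK1, hv1, hle⟩ := hK _ hv'
      obtain ⟨K2, hK2, hv2, hle2⟩ := h K1 hK1 x v hv1
      exact ⟨K2, hK2, hv2, fun w hw => hle (hle2 w hw)⟩
  apply Language.IsRegular.of_finite_range_leftQuotient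
  refine Set.Finite.subset (hS.finite_subsets.image (fun T : Set (Language X) => (sSup T : Language X))) ?_
  rintro _ ⟨z, rfl⟩
  refine ⟨{K' | K' ∈ S ∧ K' ≤ K.leftQuotient z}, fun K' hK' => hK'.1, ?_⟩
  apply le_antisymm
  · exact sSup_le fun K' hK' => hK'.2
  · intro y hy
    obtain ⟨K', hK', hy', hle⟩ := key z K (fun y hy => ⟨K, hK, hy, le_refl _⟩) y hy
    exact (le_sSup (show K' ∈ {K' | K' ∈ S ∧ K' ≤ K.leftQuotient z} from ⟨hK', hle⟩) :
      K' ≤ _) hy'

theorem regular_star {ι : Type} [Finite ι] (f : ι → List X) (hf : ∀ i, f i ≠ [])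
    (p q : List X) :
    Language.IsRegular ({w | ∃ z : List ι, w = p ++ z.flatMap f ++ q} : Language X) := by
  let comp : List X → Language X := fun s => {w | ∃ z : List ι, w = s ++ z.flatMap f ++ q}
  let sing : List X → Language X := fun s => ({s} : Set (List X))
  let A : Set (List X) := {s | s ∈ p.tails} ∪ ⋃ i, {s | s ∈ (f i).tails}
  let B : Set (List X) := {s | s ∈ q.tails}
  have hA : A.Finite := by
    apply Set.Finite.union (List.finite_toSet _)
    exact Set.finite_iUnion fun i => List.finite_toSet _
  have hB : B.Finite := List.finite_toSet _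
  refine regular_of_components (comp '' A ∪ sing '' B) ((hA.image _).union (hB.image _)) ?_ _
    (Or.inl ⟨p, Or.inl (by simp), rfl⟩)
  rintro K (⟨s, hs, rfl⟩ | ⟨s, hs, rfl⟩) x y hy
  · obtain ⟨z, hz⟩ := hy
    rcases s with _ | ⟨x', s⟩
    · rcases z with _ | ⟨i, z⟩
      · refine ⟨sing y, Or.inr ⟨y, ?_, rfl⟩, rfl, ?_⟩
        · have : q = x :: y := by simpa using hz.symm
          change y ∈ q.tails
          rw [this]; simp
        · intro v hv
          have : v = y := hv
          subst this
          exact ⟨[], by simpa using hz⟩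
      · obtain ⟨x', s, hfs⟩ : ∃ x' s, f i = x' :: s := List.exists_cons_of_ne_nil (hf i)
        rw [List.flatMap_cons, hfs] at hz
        simp only [List.nil_append, List.cons_append, List.cons.injEq, List.append_assoc] at hz
        obtain ⟨rfl, hz⟩ := hz
        refine ⟨comp s, Or.inl ⟨s, Or.inr ?_, rfl⟩, ⟨z, by simpa using hz⟩, ?_⟩
        · refine Set.mem_iUnion.mpr ⟨i, ?_⟩
          change s ∈ (f i).tails
          rw [hfs]; simp
        · rintro v ⟨z', rfl⟩
          exact ⟨i :: z', by simp [hfs]⟩
    · simp only [List.cons_append, List.cons.injEq] at hz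
      obtain ⟨rfl, hz⟩ := hz
      refine ⟨comp s, Or.inl ⟨s, ?_, rfl⟩, ⟨z, hz⟩, ?_⟩
      · rcases hs with hs | hs
        · left
          change _ ∈ p.tails at hs
          change _ ∈ p.tails
          rw [List.mem_tails] at hs ⊢
          exact (List.suffix_cons x s).trans hs
        · right
          obtain ⟨i, hi⟩ := Set.mem_iUnion.mp hs
          refine Set.mem_iUnion.mpr ⟨i, ?_⟩
          change _ ∈ (f i).tails at hi
          change _ ∈ (f i).tails
          rw [List.mem_tails] at hi ⊢
          exact (List.suffix_cons x s).trans hi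
      · rintro v ⟨z', rfl⟩
        exact ⟨z', by simp⟩
  · have hy' : x :: y = s := hy
    subst hy'
    refine ⟨sing y, Or.inr ⟨y, ?_, rfl⟩, rfl, ?_⟩
    · change _ ∈ q.tails at hs
      change _ ∈ q.tails
      rw [List.mem_tails] at hs ⊢
      exact (List.suffix_cons x y).trans hs
    · intro v hv
      have : v = y := hv
      subst this
      rfl

end Pool.Agent.TH738.BQ
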