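import Pool.Agent.TH738.BQ.Len
import Pool.Agent.TH738.BQ.Reg

set_option autoImplicit false

namespace Pool.Agent.TH738.BQ

variable {X : Type}

/-- the morphism on `{a, b, c, d, x, y}` with `x ↦ p`, `y ↦ q` -/
def full (p q : List X) (h : Fin 4 → List X) : Fin 6 → List X := ![h 0, h 1, h 2, h 3, p, q]

/-- the inclusion of the letters `a, b, c, d` -/
def inc : Fin 4 → Fin 6 := ![0, 1, 2, 3]

theorem full_inc (p q : List X) (h : Fin 4 → List X) (i : Fin 4) : full p q h (inc i) = h i := by
  fin_cases i <;> rfl

theorem flatMap_map_inc (p q : List X) (h : Fin 4 → List X) (w : List (Fin 4)) :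
    (w.map inc).flatMap (full p q h) = w.flatMap h := by
  induction w with
  | nil => rfl
  | cons i w ih => simp [full_inc, ih]

theorem inc_inj : Function.Injective inc := by decide
theorem inc_ne5 (i : Fin 4) : inc i ≠ 5 := by fin_cases i <;> decide
theorem inc_ne4 (i : Fin 4) : inc i ≠ 4 := by fin_cases i <;> decide

theorem cases6 (i : Fin 6) : (∃ j, i = inc j) ∨ i = 4 ∨ i = 5 := by
  fin_cases i
  · exact Or.inl ⟨0, rfl⟩
  · exact Or.inl ⟨1, rfl⟩
  · exact Or.inl ⟨2, rfl⟩
  · exact Or.inl ⟨3, rfl⟩
  · exact Or.inr (Or.inl rfl)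
  · exact Or.inr (Or.inr rfl)

/-- the set of all words `p ++ h(z) ++ q` -/
def img (p q : List X) (h : Fin 4 → List X) : Language X :=
  {w | ∃ z : List (Fin 4), w = p ++ z.flatMap h ++ q}

section
variable {L : Language X} {p q : List X} {h : Fin 4 → List X} (P : Par)

/-- the new words -/
def nh (h : Fin 4 → List X) (i : Fin 4) : List X := (P.g i).flatMap h
def np (p : List X) (h : Fin 4 → List X) : List X := p ++ h 0
def nq (q : List X) (h : Fin 4 → List X) : List X := P.wy.flatMap h ++ q

theorem new_word (p q : List X) (h : Fin 4 → List X) (z : List (Fin 4)) :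
    np p h ++ z.flatMap (nh P h) ++ nq P q h =
      p ++ (0 :: z.flatMap P.g ++ P.wy).flatMap h ++ q := by
  have : z.flatMap (nh P h) = (z.flatMap P.g).flatMap h := by
    rw [List.flatMap_assoc]; rfl
  simp [np, nq, this]

variable {P}

theorem new_mem (hP : P.Good) (hL : ∀ z : List (Fin 4), p ++ z.flatMap h ++ q ∈ L ↔ E z)
    (z : List (Fin 4)) : np p h ++ z.flatMap (nh P h) ++ nq P q h ∈ L ↔ E z := by
  rw [new_word, hL, Par.faithful hP]

theorem not_E_update : ∀ i j : Fin 4, i ≠ j →
    run (([0, 3, 1, 3, 2] : List (Fin 4)).map (Function.update id i j)) ⟨true, []⟩ ≠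
      some ⟨false, []⟩ := by
  decide

theorem inj_of_mem {p' q' : List X} {h' : Fin 4 → List X}
    (hL : ∀ z : List (Fin 4), p' ++ z.flatMap h' ++ q' ∈ L ↔ E z) : Function.Injective h' := by
  intro i j hij
  by_contra hne
  apply not_E_update i j hne
  rw [← E_iff, ← hL]
  have e : (([0, 3, 1, 3, 2] : List (Fin 4)).map (Function.update id i j)).flatMap h' =
      ([0, 3, 1, 3, 2] : List (Fin 4)).flatMap h' := by
    have hs : ∀ x : Fin 4, h' (Function.update id i j x) = h' x := by
      intro x
      by_cases hx : x = i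
      · subst hx; simp [hij]
      · simp [Function.update_of_ne hx]
    simp [hs]
  rw [e, hL, E_iff]
  decide

theorem ne_nil_of_mem {p' q' : List X} {h' : Fin 4 → List X} {N : ℕ}
    (hN : ∀ i, (h' i).length = N)
    (hL : ∀ z : List (Fin 4), p' ++ z.flatMap h' ++ q' ∈ L ↔ E z) (i : Fin 4) : h' i ≠ [] := by
  intro h0
  have hN0 : N = 0 := by rw [← hN i, h0]; rfl
  have h1 : h' 3 = [] := List.eq_nil_of_length_eq_zero (by rw [hN, hN0])
  have h2 : E [] := by
    rw [← hL]
    have := (hL [3]).mpr E.leaf
    simpa [h1] using this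
  rw [E_iff] at h2
  exact absurd h2 (by decide)

theorem code_of_uniform {h' : Fin 4 → List X} {N : ℕ} (hN : ∀ i, (h' i).length = N)
    (hi : Function.Injective h') (hne : ∀ i, h' i ≠ []) (w₁ w₂ : List (Fin 4))
    (h : w₁.flatMap h' = w₂.flatMap h') : w₁ = w₂ := by
  induction w₁ generalizing w₂ with
  | nil =>
    rcases w₂ with _ | ⟨j, w₂⟩
    · rfl
    · simp [hne j] at h
  | cons i w₁ ih =>
    rcases w₂ with _ | ⟨j, w₂⟩
    · simp [hne i] at h
    · rw [List.flatMap_cons, List.flatMap_cons] at h
      obtain ⟨h1, h2⟩ := List.append_inj h (by rw [hN, hN])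
      rw [hi h1, ih w₂ h2]

/-- the morphism that lifts the self-embedding to six letters -/
def G (P : Par) : Fin 6 → List (Fin 6) :=
  ![(P.g 0).map inc, (P.g 1).map inc, (P.g 2).map inc, (P.g 3).map inc, [4, 0],
    P.wy.map inc ++ [5]]

theorem G_inc (i : Fin 4) : G P (inc i) = (P.g i).map inc := by fin_cases i <;> rfl

theorem flatMap_G (w : List (Fin 4)) : (w.map inc).flatMap (G P) = (w.flatMap P.g).map inc := by
  induction w with
  | nil => rfl
  | cons i w ih => simp [G_inc, ih]

theorem new_full (z : List (Fin 6)) :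
    z.flatMap (full (np p h) (nq P q h) (nh P h)) = (z.flatMap (G P)).flatMap (full p q h) := by
  rw [List.flatMap_assoc]
  congr 1
  funext i
  rcases cases6 i with ⟨j, rfl⟩ | rfl | rfl
  · rw [full_inc, G_inc, flatMap_map_inc]; rfl
  · simp [full, G, np]
  · have : G P 5 = P.wy.map inc ++ [5] := rfl
    rw [this, List.flatMap_append, flatMap_map_inc]
    simp [full, nq]

theorem g_ne_nil (i : Fin 4) : P.g i ≠ [] := by
  fin_cases i <;> simp [Par.g]

theorem cancel_inc (u v : List (Fin 4)) (s : List (Fin 6))
    (h : u.map inc ++ s = v.map inc ++ [5]) : ∃ v', v = u ++ v' ∧ s = v'.map inc ++ [5] := by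
  induction u generalizing v with
  | nil => exact ⟨v, rfl, h⟩
  | cons i u ih =>
    rcases v with _ | ⟨j, v⟩
    · simp only [List.map_cons, List.cons_append, List.map_nil, List.nil_append,
        List.cons.injEq] at h
      exact absurd h.1 (inc_ne5 i)
    · simp only [List.map_cons, List.cons_append, List.cons.injEq] at h
      obtain ⟨v', rfl, hs⟩ := ih v h.2
      rw [inc_inj h.1]
      exact ⟨v', rfl, hs⟩

theorem G_tail (z : List (Fin 6)) (v : List (Fin 4)) (h : z.flatMap (G P) = v.map inc ++ [5]) :
    ∃ z₂ : List (Fin 4), z = z₂.map inc ++ [5] ∧ v = z₂.flatMap P.g ++ P.wy := by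
  induction z generalizing v with
  | nil => simp at h
  | cons i z ih =>
    rw [List.flatMap_cons] at h
    rcases cases6 i with ⟨j, rfl⟩ | rfl | rfl
    · rw [G_inc] at h
      obtain ⟨v', rfl, hs⟩ := cancel_inc _ _ _ h
      obtain ⟨z₂, rfl, rfl⟩ := ih v' hs
      exact ⟨j :: z₂, by simp, by simp⟩
    · have e : G P 4 = [4, 0] := rfl
      rw [e] at h
      rcases v with _ | ⟨j, v⟩
      · simp at h
      · simp only [List.cons_append, List.map_cons, List.cons.injEq] at h
        exact absurd h.1.symm (inc_ne4 j)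
    · have e : G P 5 = P.wy.map inc ++ [5] := rfl
      rw [e, List.append_assoc] at h
      obtain ⟨v', rfl, hs⟩ := cancel_inc _ _ _ h
      rcases v' with _ | ⟨j, v'⟩
      · have hz : z.flatMap (G P) = [] := by simpa using hs
        rcases z with _ | ⟨i, z⟩
        · exact ⟨[], rfl, by simp⟩
        · exfalso
          rw [List.flatMap_cons] at hz
          have h0 : G P i = [] := (List.append_eq_nil_iff.mp hz).1
          rcases cases6 i with ⟨j, rfl⟩ | rfl | rfl
          · rw [G_inc] at h0
            exact g_ne_nil j (List.map_eq_nil_iff.mp h0)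
          · exact absurd h0 (by simp [G])
          · have e : G P 5 = P.wy.map inc ++ [5] := rfl
            rw [e] at h0
            simp at h0
      · simp only [List.map_cons, List.cons_append, List.cons.injEq, List.nil_append] at hs
        exact absurd hs.1.symm (inc_ne5 j)

theorem G_word (hP : P.Good) (z : List (Fin 6)) :
    (∃ e : List (Fin 4), E e ∧ z.flatMap (G P) = 4 :: e.map inc ++ [5]) ↔
      ∃ e : List (Fin 4), E e ∧ z = 4 :: e.map inc ++ [5] := by
  constructor
  · rintro ⟨e, he, hz⟩
    rcases z with _ | ⟨i, z⟩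
    · simp at hz
    · rw [List.flatMap_cons] at hz
      rcases cases6 i with ⟨j, rfl⟩ | rfl | rfl
      · rw [G_inc] at hz
        obtain ⟨a, l, hl⟩ := List.exists_cons_of_ne_nil (g_ne_nil (P := P) j)
        rw [hl] at hz
        simp only [List.map_cons, List.cons_append, List.cons.injEq] at hz
        exact absurd hz.1 (inc_ne4 a)
      · have e4 : G P 4 = [4, 0] := rfl
        rw [e4] at hz
        simp only [List.cons_append, List.nil_append, List.cons.injEq, true_and] at hz
        rcases e with _ | ⟨a, e⟩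
        · simp at hz
        · simp only [List.map_cons, List.cons_append, List.cons.injEq] at hz
          obtain ⟨z₂, rfl, rfl⟩ := G_tail z e hz.2
          have ha : a = 0 := inc_inj (hz.1.symm.trans rfl)
          subst ha
          refine ⟨z₂, (Par.faithful hP z₂).mp ?_, by simp⟩
          simpa using he
      · have e5 : G P 5 = P.wy.map inc ++ [5] := rfl
        rw [e5] at hz
        simp only [Par.wy, List.map_cons, List.cons_append, List.cons.injEq] at hz
        exact absurd hz.1 (inc_ne4 3)
  · rintro ⟨e, he, rfl⟩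
    refine ⟨0 :: e.flatMap P.g ++ P.wy, (Par.faithful hP e).mpr he, ?_⟩
    have e4 : G P 4 = [4, 0] := rfl
    have e5 : G P 5 = P.wy.map inc ++ [5] := rfl
    have i0 : inc 0 = 0 := rfl
    simp [flatMap_G, e4, e5, i0]

end

end Pool.Agent.TH738.BQ
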